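import Pool.Agent.helper57.MS.Spec

/-!
# Row ms:EXP
-/

set_option autoImplicit false

open Finset

namespace Pool.Agent.helper57.MS

open Pool.Agent.RRank Pool.Agent.helper26.IM

/-- Row EXP. -/
theorem EXP (hGRP : GRP_stmt) (hEXS : EXS_stmt) : EXP_stmt := by
  intro K _ Ω _ Q F B hB S s hs g hg
  have h := hEXS K Ω Q F B hB S s hs g hg
  obtain ⟨κ, inst, j, b, r, h1, h2, h3, h4⟩ := hGRP K (((ω : Ω) → Q ω) → K) (Finset Ω)
    (fun J => {b | b ∈ B J ∧ s ∈ J ∧ J ⊆ S}) (fun J => Subalgebra.toSubmodule (F.E (S \ J))) g h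
  exact ⟨κ, inst, j, b, r, fun k => (h1 k).2, fun k => (h1 k).1, fun k => h2 k, h3, h4⟩

end Pool.Agent.helper57.MS
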