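import Pool.Agent.helper57.MS.Spec2

/-!
# Project ms (MP_b48e27_co), row INM (helper90): finite intersections
-/

set_option autoImplicit false

open Finset

namespace Pool.Agent.helper57.MS

open Pool.Agent.RRank Pool.Agent.helper26.IM

theorem INM_lower {d : ℕ} {S : Finset (Fin d)} (A : Finset (Fin d)) :
    IsLowerSet {P : Finpartition S | NCP A P} := by
  intro P P' hle hP I hI hA
  obtain ⟨J, hJ, hIJ⟩ := hle hI
  exact hP J hJ (hA.trans hIJ)

theorem INM_lower' {d : ℕ} {S : Finset (Fin d)} (AA : Finset (Finset (Fin d))) :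
    IsLowerSet {P : Finpartition S | ∀ A ∈ AA, NCP A P} := by
  intro P P' hle hP A hA
  exact INM_lower A hle (hP A hA)

theorem INM_all {K : Type} [Field K] {d : ℕ} {Q : Fin d → Type} (F : FSys K (Fin d) Q)
    (S : Finset (Fin d)) : ∀ g ∈ F.E S, g ∈ F.Fs (Set.univ : Set (Finpartition S)) := by
  classical
  intro g hg
  by_cases hS : S = ∅
  · subst hS
    by_cases hne : Nonempty ((ω : Fin d) → Q ω)
    · obtain ⟨x₀⟩ := hne
      have h1 : (1 : ((ω : Fin d) → Q ω) → K) ∈ F.Fs (Set.univ : Set (Finpartition (∅ : Finset (Fin d)))) := by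
        refine Submodule.subset_span ⟨Finpartition.empty (Finset (Fin d)), Set.mem_univ _, fun _ => 1,
          fun I hI => ?_, ?_⟩
        · exact (F.E I).one_mem
        · simp
      have h2 : g = g x₀ • (1 : ((ω : Fin d) → Q ω) → K) := by
        funext x
        have h3 := F.dep ∅ g hg (x := x) (y := x₀) (by intro i hi; simp at hi)
        simp [h3]
      rw [h2]
      exact Submodule.smul_mem _ _ h1
    · have h2 : g = 0 := by
        funext x
        exact absurd ⟨x⟩ hne
      rw [h2]
      exact Submodule.zero_mem _
  · refine Submodule.subset_span ⟨Finpartition.indiscrete (a := S) hS, Set.mem_univ _, fun _ => g,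
      fun I hI => ?_, ?_⟩
    · rw [Finpartition.indiscrete_parts, Finset.mem_singleton] at hI
      rw [hI]; exact hg
    · rw [Finpartition.indiscrete_parts, Finset.prod_singleton]

/-- **INM**. -/
theorem INM (hMEET : MEET_stmt) : INM_stmt := by
  classical
  intro K _ d Q F S AA g hg
  induction AA using Finset.induction_on with
  | empty =>
    intro _
    have h1 : {P : Finpartition S | ∀ A ∈ (∅ : Finset (Finset (Fin d))), NCP A P} = Set.univ := by
      ext P; simp
    rw [h1]
    exact INM_all F S g hg
  | insert a s ha ih =>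
    intro h
    have h1 : {P : Finpartition S | ∀ A ∈ insert a s, NCP A P} =
        {P : Finpartition S | NCP a P} ∩ {P : Finpartition S | ∀ A ∈ s, NCP A P} := by
      ext P
      simp only [Finset.mem_insert, Set.mem_setOf_eq, Set.mem_inter_iff]
      constructor
      · intro h; exact ⟨h a (Or.inl rfl), fun A hA => h A (Or.inr hA)⟩
      · rintro ⟨h, h'⟩ A (rfl | hA)
        · exact h
        · exact h' A hA
    rw [h1]
    exact hMEET K (Fin d) Q F S _ _ (INM_lower a) (INM_lower' s) g (h a (Finset.mem_insert_self _ _))
      (ih fun A hA => h A (Finset.mem_insert_of_mem hA))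

end Pool.Agent.helper57.MS
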