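import Pool.Agent.helper57.MS.Spec

/-!
# Row ms:UNI
-/

set_option autoImplicit false

open Finset

namespace Pool.Agent.helper57.MS

open Pool.Agent.RRank Pool.Agent.helper26.IM

section UNI

variable {K : Type} [Field K] {Ω : Type} [DecidableEq Ω] {Q : Ω → Type}

lemma UNI_set (S J : Finset Ω) (α : Ω) : (S \ J).erase α = (S.erase α) \ (J.erase α) := by
  ext x
  simp only [mem_erase, mem_sdiff]
  tauto

lemma UNI_gen (F : FSys K Ω Q) (S J : Finset Ω) (s α : Ω) (M : ℕ) (q : Q α) (hsα : s ≠ α) (hJ : J ⊆ S) (hs : s ∈ J)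
    (hc : (J.erase α).card < M) (f g : ((ω : Ω) → Q ω) → K) (hf : f ∈ F.E J) (hg : g ∈ F.E (S \ J)) :
    ev α q f * ev α q g ∈ F.L s M (S.erase α) := by
  apply Submodule.subset_span
  refine ⟨J.erase α, erase_subset_erase α hJ, mem_erase.2 ⟨hsα, hs⟩, hc, ev α q f, F.ev_mem J f hf α q,
    ev α q g, ?_, rfl⟩
  rw [← UNI_set]
  exact F.ev_mem _ g hg α q

lemma UNI_L (F : FSys K Ω Q) (S : Finset Ω) (s α : Ω) (M : ℕ) (q : Q α) (hsα : s ≠ α) (v : ((ω : Ω) → Q ω) → K)
    (hv : v ∈ F.L s M S) : ev α q v ∈ F.L s M (S.erase α) := by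
  unfold FSys.L at hv
  induction hv using Submodule.span_induction with
  | mem h hh =>
    obtain ⟨J, hJ, hs, hc, f, hf, g, hg, rfl⟩ := hh
    exact UNI_gen F S J s α M q hsα hJ hs (lt_of_le_of_lt (card_le_card (erase_subset _ _)) hc) f g hf hg
  | zero => exact zero_mem _
  | add x y _ _ hx hy => exact add_mem hx hy
  | smul c x _ hx => exact Submodule.smul_mem _ c hx

lemma UNI_dep (F : FSys K Ω Q) (J : Finset Ω) (α : Ω) (q : Q α) (hα : α ∉ J) (f : ((ω : Ω) → Q ω) → K)
    (hf : f ∈ F.E J) : ev α q f = f := by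
  funext x
  apply F.dep J f hf
  intro i hi
  have : i ≠ α := by
    rintro rfl
    exact hα hi
  rw [Function.update_of_ne this]

end UNI

/-- Row UNI. -/
theorem UNI : UNI_stmt := by
  classical
  intro K _ Ω _ Q F S
  induction hn : S.card using Nat.strong_induction_on generalizing S with
  | _ n ih =>
  intro s M κ _ J b R hJ hb hR hInd hsum k₁
  by_cases hne : Nonempty ((ω : Ω) → Q ω)
  swap
  · funext x
    exact absurd ⟨x⟩ hne
  obtain ⟨x₀⟩ := hne
  by_cases hk : J k₁ = S
  · -- constants
    have hM : M = S.card := by rw [← (hJ k₁).2.2, hk]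
    have hall : ∀ k, J k = S := by
      intro k
      exact eq_of_subset_of_card_le (hJ k).2.1 (by rw [(hJ k).2.2, hM])
    have hconst : ∀ k, R k = fun _ => R k x₀ := by
      intro k
      funext x
      have h1 := hR k
      rw [hall k, sdiff_self] at h1
      apply F.dep _ _ h1
      intro i hi
      exact absurd hi (by simp)
    have h2 : ∀ k, b k * R k = (R k x₀) • b k := by
      intro k
      rw [hconst k]
      funext x
      simp only [Pi.mul_apply, Pi.smul_apply, smul_eq_mul]
      ring
    have h3 : F.L s M S ≤ F.D S := by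
      unfold FSys.L FSys.D
      apply Submodule.span_mono
      rintro h ⟨J', hJ', hs, hc, f, hf, g, hg, rfl⟩
      refine ⟨J', S \ J', ⟨s, hs⟩, ?_, disjoint_sdiff, union_sdiff_of_subset hJ', f, hf, g, hg, rfl⟩
      rw [sdiff_nonempty]
      intro h4
      have h5 := card_le_card h4
      omega
    have h4 := h3 hsum
    rw [Finset.sum_congr rfl (fun k _ => h2 k)] at h4
    have h5 := hInd S (fun k => R k x₀) (fun k hk' => absurd (hall k) hk') h4 k₁
    rw [hconst k₁]
    funext x
    exact h5
  · -- evaluation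
    obtain ⟨α, hαS, hαJ⟩ : ∃ α ∈ S, α ∉ J k₁ := by
      by_contra hcon
      push Not at hcon
      exact hk (Subset.antisymm (hJ k₁).2.1 hcon)
    have hsα : s ≠ α := by
      rintro rfl
      exact hαJ (hJ k₁).1
    suffices hq : ∀ q : Q α, ev α q (R k₁) = 0 by
      funext x
      have h1 := congrFun (hq (x α)) x
      unfold ev at h1
      rwa [Function.update_eq_self] at h1
    intro q
    have hcard : (S.erase α).card < n := by
      rw [← hn]
      exact card_erase_lt_of_mem hαS
    refine ih _ hcard (S.erase α) rfl s M {k // α ∉ J k} (fun k => J k) (fun k => b k)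
      (fun k => ev α q (R k)) ?_ ?_ ?_ ?_ ?_ ⟨k₁, hαJ⟩
    · intro k
      refine ⟨(hJ k).1, ?_, (hJ k).2.2⟩
      intro x hx
      rw [mem_erase]
      refine ⟨?_, (hJ k).2.1 hx⟩
      rintro rfl
      exact k.2 hx
    · intro k
      exact hb k
    · intro k
      have h1 := F.ev_mem _ _ (hR k) α q
      rw [UNI_set, erase_eq_of_notMem k.2] at h1
      exact h1
    · intro J₀ c hc hcs k
      have h1 := hInd J₀ (fun k => if h : α ∉ J k then c ⟨k, h⟩ else 0) ?_ ?_ k
      · rw [dif_pos k.2] at h1
        exact h1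
      · intro k hk'
        by_cases h : α ∉ J k
        · rw [dif_pos h]
          exact hc ⟨k, h⟩ hk'
        · rw [dif_neg h]
      · have h2 : (∑ k, (if h : α ∉ J k then c ⟨k, h⟩ else 0) • b k) =
            ∑ k : {k // α ∉ J k}, c k • b k := by
          rw [← Fintype.sum_subtype_add_sum_subtype (fun k => α ∉ J k)]
          have h3 : ∑ k : {k // ¬ α ∉ J k}, (if h : α ∉ J (k : κ) then c ⟨k, h⟩ else 0) • b (k : κ) = 0 := by
            apply Finset.sum_eq_zero
            intro k _
            rw [dif_neg k.2, zero_smul]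
          rw [h3, add_zero]
          apply Finset.sum_congr rfl
          intro k _
          rw [dif_pos k.2]
        rw [h2]
        exact hcs
    · have h1 := UNI_L F S s α M q hsα _ hsum
      have h2 : ev α q (∑ k, b k * R k) = ∑ k, ev α q (b k) * ev α q (R k) := by
        funext x
        unfold ev
        simp only [Finset.sum_apply, Pi.mul_apply]
      rw [h2, ← Fintype.sum_subtype_add_sum_subtype (fun k => α ∉ J k)] at h1
      have h3 : ∑ k : {k // ¬ α ∉ J k}, ev α q (b (k : κ)) * ev α q (R (k : κ)) ∈ F.L s M (S.erase α) := by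
        apply Submodule.sum_mem
        intro k _
        have h4 : α ∈ J k := not_not.1 k.2
        apply UNI_gen F S (J k) s α M q hsα (hJ k).2.1 (hJ k).1 _ _ _ (hb k) (hR k)
        have h5 := card_erase_lt_of_mem h4
        rw [(hJ k).2.2] at h5
        exact h5
      have h4 := Submodule.sub_mem _ h1 h3
      rw [add_sub_cancel_right] at h4
      have h5 : ∑ k : {k // α ∉ J k}, ev α q (b (k : κ)) * ev α q (R (k : κ)) =
          ∑ k : {k // α ∉ J k}, b (k : κ) * ev α q (R (k : κ)) := by
        apply Finset.sum_congr rfl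
        intro k _
        rw [UNI_dep F (J k) α q k.2 (b k) (hb k)]
      rw [h5] at h4
      exact h4

end Pool.Agent.helper57.MS
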